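import Pool.Agent.Lib.MP_a3b3a7_nt.Share

/-!
Bounds for the shares.
-/

namespace Pool.Agent.Lib.MP_a3b3a7_nt

open Finset Filter

theorem share_bounds {q : ℕ} [NeZero q] : ∀ᶠ x : ℝ in atTop,
    (∀ A : Finset ((ZMod q)ˣ × (ZMod q)ˣ),
      ∑ s ∈ A, share q s.1 s.2 x ≤ 40000 * √(#A) / q.totient) ∧
    3 / 4 ≤ ∑ s : (ZMod q)ˣ × (ZMod q)ˣ, share q s.1 s.2 x := by
  filter_upwards [mass (NeZero.pos q), (Nat.tendsto_primeCounting.comp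
    (tendsto_nat_floor_atTop (α := ℝ))).eventually_ge_atTop (4 * (q + 1))] with x h1 h2
  have h3 : 4 * ((q : ℝ) + 1) ≤ ⌊x⌋₊.primeCounting := by exact_mod_cast h2
  have h4 : (0 : ℝ) < ⌊x⌋₊.primeCounting := lt_of_lt_of_le (by positivity) h3
  have e : ∀ A : Finset ((ZMod q)ˣ × (ZMod q)ˣ), ∑ s ∈ A, share q s.1 s.2 x =
      (∑ s ∈ A, cnt ⌊x⌋₊ (s.1 : ZMod q) s.2 : ℝ) / ⌊x⌋₊.primeCounting := fun A => by
    rw [sum_div]; rfl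
  refine ⟨fun A => ?_, ?_⟩
  · rw [e, div_le_iff₀ h4]; exact h1 A
  · rw [e, le_div_iff₀ h4]
    have h6 := all_units (q := q) ⌊x⌋₊
    push_cast at h6
    linarith

end Pool.Agent.Lib.MP_a3b3a7_nt
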