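import Pool.Agent.Lib.MP_a3b3a7_nt.Pairs

/-!
Consecutive primes in residue classes: no set of patterns carries too much mass.
-/

namespace Pool.Agent.Lib.MP_a3b3a7_nt

open Finset Function Filter Pool.Agent.Shared.SelbergUpper

/-- the primes in increasing order -/
noncomputable abbrev pr (n : ℕ) : ℕ := Nat.nth Nat.Prime n

lemma pr_prime (n : ℕ) : (pr n).Prime := Nat.prime_nth_prime n
lemma pr_lt (n : ℕ) : pr n < pr (n + 1) := Nat.nth_strictMono Nat.infinite_setOfPred_prime n.lt_succ_self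
lemma pr_le {n X : ℕ} (h : n ∈ range X.primeCounting) : pr n ≤ X :=
  Nat.lt_succ_iff.1 (Nat.nth_lt_of_lt_count (mem_range.1 h))

lemma next_le {X : ℕ} (hX : X ≠ 0) : pr X.primeCounting ≤ 2 * X := by
  obtain ⟨p, h1, h2, h3⟩ := Nat.exists_prime_lt_and_le_two_mul X hX
  rw [pr, Nat.primeCounting, Nat.primeCounting', Nat.nth_count_eq_sInf]
  exact (Nat.sInf_le (show p ∈ {i | i.Prime ∧ X + 1 ≤ i} from ⟨h1, h2⟩)).trans h3

lemma gaps {X H : ℕ} (hX : X ≠ 0) :
    (#{n ∈ range X.primeCounting | pr n + H < pr (n + 1)} : ℝ) * (H + 1) ≤ 2 * X := by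
  rw [← nsmul_eq_mul, ← sum_const]
  calc _ ≤ ∑ n ∈ range X.primeCounting with pr n + H < pr (n + 1), ((pr (n + 1) : ℝ) - pr n) :=
        sum_le_sum fun n hn => by
          have : ((pr n + H + 1 : ℕ) : ℝ) ≤ pr (n + 1) := Nat.cast_le.2 (mem_filter.1 hn).2
          push_cast at this
          linarith
    _ ≤ ∑ n ∈ range X.primeCounting, ((pr (n + 1) : ℝ) - pr n) :=
        sum_le_sum_of_subset_of_nonneg (filter_subset _ _) fun n _ _ =>
          sub_nonneg.2 (Nat.cast_le.2 (pr_lt n).le)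
    _ ≤ _ := by
        rw [sum_range_sub fun n => (pr n : ℝ)]
        have : (pr X.primeCounting : ℝ) ≤ (2 * X : ℕ) := Nat.cast_le.2 (next_le hX)
        push_cast at this
        linarith [Nat.cast_nonneg (α := ℝ) (pr 0)]

lemma small {y : ℝ} (hy : 0 ≤ y) (m : ℕ) : (#{n ∈ range m | (pr n : ℝ) ≤ y} : ℝ) ≤ y + 1 := by
  have := card_cong (A := {n ∈ range m | (pr n : ℝ) ≤ y}) (H := ⌊y⌋₊) (m := 1)
    (fun n hn => Nat.le_floor ((Nat.cast_le.2 (by
      have : n + 2 ≤ pr n := Nat.add_two_le_nth_prime n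
      omega)).trans (mem_filter.1 hn).2)) fun _ _ _ _ => Nat.modEq_one
  simp only [Nat.cast_one, div_one] at this
  linarith [Nat.floor_le hy]

/-- number of consecutive primes with a given pattern -/
noncomputable def cnt {q : ℕ} (X : ℕ) (a b : ZMod q) : ℕ :=
  #{n ∈ range X.primeCounting | (pr n : ZMod q) = a ∧ (pr (n + 1) : ZMod q) = b}

lemma near {q : ℕ} (hq : 0 < q) (a b : ZMod q) (X H : ℕ) {y : ℝ} (hy : 1 < y) :
    (#{n ∈ range X.primeCounting | ((pr n : ZMod q) = a ∧ (pr (n + 1) : ZMod q) = b) ∧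
      ¬ (pr n + H < pr (n + 1) ∨ (pr n : ℝ) ≤ y)} : ℝ) ≤
      (X / q + 1) * (16 * (q / q.totient) ^ 2 / Real.log y ^ 2) * (2 * H / q + (1 + Real.log H)) +
        H * (2 * (y * y) ^ 6) := by
  have : NeZero q := ⟨hq.ne'⟩
  let P := (range (⌊y⌋₊ + 1)).filter Nat.Prime
  have hP : ∀ p ∈ P, p.Prime := fun p hp => (mem_filter.1 hp).2
  rw [card_eq_sum_card_fiberwise (f := fun n => pr (n + 1) - pr n)
    (t := (Icc 1 H).filter fun h : ℕ => (h : ZMod q) = b - a) fun n hn => by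
      obtain ⟨-, ⟨a1, a2⟩, a3⟩ := mem_filter.1 hn
      have := pr_lt n
      refine mem_coe.2 (mem_filter.2 ⟨mem_Icc.2 ⟨show 1 ≤ pr (n + 1) - pr n by omega,
        show pr (n + 1) - pr n ≤ H by omega⟩, show ((pr (n + 1) - pr n : ℕ) : ZMod q) = _ from ?_⟩)
      rw [Nat.cast_sub this.le, a1, a2]]
  push_cast
  refine (sum_le_sum (g := fun h => (X / q + 1 : ℝ) * (16 * (q / q.totient) ^ 2 / Real.log y ^ 2) *
    sig P q h + 2 * (y * y) ^ 6) fun h _ => ?_).trans ?_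
  · refine le_trans (Nat.cast_le.2 (card_le_card_of_injOn (fun n => pr n / q) (fun n hn => ?_)
      fun n hn m hm e => ?_)) ((pairs hP hy (fun p h1 h2 => mem_filter.2 ⟨mem_range.2
        (Nat.lt_succ_of_le (Nat.le_floor h2)), h1⟩) (fun p hp => (Nat.le_floor_iff (by linarith)).1
        (Nat.lt_succ_iff.1 (mem_range.1 (mem_filter.1 hp).1))) hq a.val h (X / q + 1)).trans ?_)
    · obtain ⟨a0, a4⟩ := mem_filter.1 (mem_coe.1 hn)
      obtain ⟨a0, ⟨a1, -⟩, a3⟩ := mem_filter.1 a0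
      have e : a.val + q * (pr n / q) = pr n := by rw [← a1, ZMod.val_natCast, Nat.mod_add_div]
      have := pr_lt n
      refine mem_coe.2 (mem_filter.2 ⟨mem_range.2 (Nat.lt_succ_of_le
        (Nat.div_le_div_right (pr_le a0))), ?_⟩)
      rw [e, show pr n + h = pr (n + 1) by omega]
      exact ⟨pr_prime _, pr_prime _, not_le.1 fun c => a3 (.inr c)⟩
    · have a1 := (mem_filter.1 (mem_filter.1 (mem_coe.1 hn)).1).2.1.1
      have a2 := (mem_filter.1 (mem_filter.1 (mem_coe.1 hm)).1).2.1.1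
      refine (Nat.nth_strictMono Nat.infinite_setOfPred_prime).injective (show pr n = pr m from ?_)
      rw [← Nat.mod_add_div (pr n) q, ← Nat.mod_add_div (pr m) q, show pr n / q = pr m / q from e,
        show pr n % q = pr m % q from (ZMod.natCast_eq_natCast_iff _ _ _).1 (a1.trans a2.symm)]
    · have s0 : 0 ≤ sig P q h := by unfold sig; positivity
      rw [mul_assoc (X / q + 1 : ℝ), div_mul_eq_mul_div]
      push_cast
      gcongr
      exact Nat.cast_div_le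
  · rw [sum_add_distrib, ← mul_sum, sum_const, nsmul_eq_mul]
    gcongr
    · exact sum_sig hP hq _ _
    · exact_mod_cast (card_filter_le _ _).trans (by simp)

lemma total {q : ℕ} (hq : 0 < q) (A : Finset ((ZMod q)ˣ × (ZMod q)ˣ)) {X : ℕ} (hX : X ≠ 0) (H : ℕ)
    {y : ℝ} (hy : 1 < y) : (∑ s ∈ A, cnt X (s.1 : ZMod q) s.2 : ℝ) ≤ 2 * X / (H + 1) + (y + 1) +
      #A * ((X / q + 1) * (16 * (q / q.totient) ^ 2 / Real.log y ^ 2) *
        (2 * H / q + (1 + Real.log H)) + H * (2 * (y * y) ^ 6)) := by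
  classical
  have h1 : ∀ s ∈ A, (cnt X (s.1 : ZMod q) s.2 : ℝ) ≤
      #{n ∈ range X.primeCounting | ((pr n : ZMod q) = s.1 ∧ (pr (n + 1) : ZMod q) = s.2) ∧
        (pr n + H < pr (n + 1) ∨ (pr n : ℝ) ≤ y)} + _ := fun s _ => by
    refine le_trans (le_of_eq ?_) (add_le_add le_rfl (near hq s.1 s.2 X H hy))
    rw [← Nat.cast_add, cnt, ← card_filter_add_card_filter_not
      (p := fun n => pr n + H < pr (n + 1) ∨ (pr n : ℝ) ≤ y), filter_filter, filter_filter]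
  refine (sum_le_sum h1).trans ?_
  rw [sum_add_distrib, sum_const, nsmul_eq_mul]
  gcongr
  rw [← Nat.cast_sum, ← card_biUnion fun s _ t _ hst => disjoint_filter.2 fun n _ a b =>
    hst (Prod.ext (Units.ext (a.1.1.symm.trans b.1.1)) (Units.ext (a.1.2.symm.trans b.1.2)))]
  refine le_trans (Nat.cast_le.2 ((card_le_card (t := {n ∈ range X.primeCounting |
    pr n + H < pr (n + 1)} ∪ {n ∈ range X.primeCounting | (pr n : ℝ) ≤ y}) fun n hn => ?_).trans
    (card_union_le _ _))) ?_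
  · obtain ⟨s, -, hs⟩ := mem_biUnion.1 hn
    rw [← filter_or]
    exact mem_filter.2 ⟨(mem_filter.1 hs).1, (mem_filter.1 hs).2.2⟩
  · push_cast
    exact add_le_add ((le_div_iff₀ (by positivity)).2 (gaps hX)) (small (by linarith) _)

lemma pi_low : ∀ᶠ x : ℝ in atTop, x / (2 * Real.log x) ≤ (⌊x⌋₊.primeCounting : ℝ) := by
  filter_upwards [Real.isLittleO_log_id_atTop.bound (c := 1 / 10) (by norm_num),
    eventually_ge_atTop 100] with x h1 h2
  refine le_trans ?_ (Chebyshev.pi_ge' (by linarith))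
  have l0 := Real.log_pos (show 1 < x by linarith)
  rw [Real.norm_of_nonneg l0.le, id, Real.norm_of_nonneg (by linarith)] at h1
  have h3 : Real.log (x + 2) ≤ Real.log x + Real.log 2 := by
    rw [← Real.log_mul (by linarith) two_ne_zero]
    exact Real.log_le_log (by linarith) (by linarith)
  rw [← div_div]
  gcongr
  nlinarith [Real.log_two_gt_d9, Real.log_two_lt_d9]

theorem mass {q : ℕ} (hq : 0 < q) : ∀ᶠ x : ℝ in atTop, ∀ A : Finset ((ZMod q)ˣ × (ZMod q)ˣ),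
    (∑ s ∈ A, cnt ⌊x⌋₊ (s.1 : ZMod q) s.2 : ℝ) ≤
      40000 * √(#A) / q.totient * (⌊x⌋₊.primeCounting : ℝ) := by
  have : NeZero q := ⟨hq.ne'⟩
  have q1 : (1 : ℝ) ≤ q := by exact_mod_cast hq
  have f1 : (1 : ℝ) ≤ q.totient := by exact_mod_cast Nat.totient_pos.2 hq
  have f2 : (q.totient : ℝ) ≤ q := by exact_mod_cast Nat.totient_le q
  filter_upwards [pi_low, eventually_ge_atTop (q : ℝ), eventually_gt_atTop 1,
    Real.tendsto_log_atTop.eventually (Real.isLittleO_log_id_atTop.bound (c := 1 / (2 * q))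
      (by positivity)), Real.tendsto_log_atTop.eventually_ge_atTop (2 * q * (1 + Real.log q)),
    (isLittleO_log_rpow_atTop (r := 1 / 14) (by norm_num)).bound (c := 1 / (2 * q ^ 2))
      (by positivity)] with x h1 h2 h3 h4 h5 h6 A
  rcases A.eq_empty_or_nonempty with rfl | hA
  · simp
  have a1 : (1 : ℝ) ≤ #A := by exact_mod_cast hA.card_pos
  have a2 : (#A : ℝ) ≤ q.totient ^ 2 := by
    have := card_le_univ A
    rw [Fintype.card_prod, ZMod.card_units_eq_totient, ← sq] at this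
    exact_mod_cast this
  have hy : 1 < x ^ (1 / 14 : ℝ) := Real.one_lt_rpow h3 (by norm_num)
  have y1 : Real.log (x ^ (1 / 14 : ℝ)) = Real.log x / 14 := by
    rw [Real.log_rpow (by linarith)]; ring
  have y2 : (x ^ (1 / 14 : ℝ)) ^ 14 = x := by
    rw [← Real.rpow_natCast, ← Real.rpow_mul (by linarith)]; norm_num
  have lq := Real.log_nonneg q1
  have L1 : 1 ≤ Real.log x := by nlinarith
  rw [Real.norm_of_nonneg (by linarith), Real.norm_of_nonneg (by linarith)] at h6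
  rw [Real.norm_of_nonneg (Real.log_nonneg L1), id, Real.norm_of_nonneg (by linarith)] at h4
  obtain ⟨r, hr⟩ : ∃ r, r = √(#A : ℝ) := ⟨_, rfl⟩
  have r1 : 1 ≤ r := hr ▸ Real.one_le_sqrt.2 a1
  have r2 : r ≤ q.totient := hr ▸ Real.sqrt_le_iff.2 ⟨by linarith, a2⟩
  have r3 : (#A : ℝ) = r ^ 2 := by rw [hr, Real.sq_sqrt (by linarith)]
  have K1 : 1 ≤ q.totient / r := (one_le_div (by linarith)).2 r2
  have K2 : q.totient / r ≤ q := (div_le_self (by linarith) r1).trans f2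
  have := total hq A (X := ⌊x⌋₊) (Nat.floor_pos.2 h3.le).ne' ⌊q.totient / r * Real.log x⌋₊ hy
  rw [y1, r3] at this
  rw [← hr]
  have X1 : (⌊x⌋₊ : ℝ) ≤ x := Nat.floor_le (by linarith)
  have H1 := Nat.floor_le (show 0 ≤ q.totient / r * Real.log x by positivity)
  have H2 := (Nat.lt_floor_add_one (q.totient / r * Real.log x)).le
  have H3 : (1 : ℝ) ≤ ⌊q.totient / r * Real.log x⌋₊ := by
    exact_mod_cast Nat.floor_pos.2 (one_le_mul_of_one_le_of_one_le K1 L1)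
  generalize (⌊q.totient / r * Real.log x⌋₊ : ℝ) = H at *
  generalize (⌊x⌋₊ : ℝ) = X at *
  generalize Real.log x = L at *
  generalize x ^ (1 / 14 : ℝ) = y at *
  generalize (q.totient : ℝ) = φ at *
  have H4 : H ≤ q * L := H1.trans (by gcongr)
  have b1 : 2 * H / q + (1 + Real.log H) ≤ 3 * (φ / r * L) / q := by
    have c1 : Real.log H ≤ Real.log q + Real.log L := by
      rw [← Real.log_mul (by positivity) (by positivity)]
      exact Real.log_le_log (by linarith) H4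
    have c2 : 1 + Real.log q ≤ 1 / (2 * q) * L := by
      rw [one_div_mul_eq_div, le_div_iff₀ (by positivity)]; linarith
    have c3 : 1 / (2 * (q : ℝ)) * L + 1 / (2 * q) * L ≤ φ / r * L / q := by
      rw [show 1 / (2 * (q : ℝ)) * L + 1 / (2 * q) * L = 1 * L / q by field_simp; ring]
      gcongr
    have c4 : 2 * H / q ≤ 2 * (φ / r * L) / q := by gcongr
    have c5 : 3 * (φ / r * L) / q = 2 * (φ / r * L) / q + φ / r * L / q := by ring
    linarith
  have b2 : X / q + 1 ≤ 2 * x / q := by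
    rw [two_mul, add_div]
    gcongr
    exact (one_le_div (by linarith)).2 h2
  have b3 : y + 1 + r ^ 2 * (H * (2 * (y * y) ^ 6)) ≤ x / (q * L) := by
    have c1 : 2 * q ^ 2 * L ≤ y := by
      rwa [one_div_mul_eq_div, le_div_iff₀' (by positivity)] at h6
    have c2 : r ^ 2 * H ≤ q ^ 2 * (q * L) := by gcongr; linarith
    have c3 : y ≤ y ^ 12 := le_self_pow₀ hy.le (by norm_num)
    have c4 : 1 ≤ (q : ℝ) ^ 2 * (q * L) := one_le_mul_of_one_le_of_one_le (one_le_pow₀ q1)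
      (one_le_mul_of_one_le_of_one_le q1 L1)
    rw [le_div_iff₀ (by positivity), ← y2]
    calc _ ≤ 4 * (q ^ 2 * (q * L)) * y ^ 12 * (q * L) := by
          gcongr
          nlinarith [mul_le_mul_of_nonneg_right c2 (show 0 ≤ y ^ 12 by positivity),
            mul_le_mul_of_nonneg_right c4 (show 0 ≤ y ^ 12 by positivity)]
      _ = (2 * q ^ 2 * L) ^ 2 * y ^ 12 := by ring
      _ ≤ y ^ 2 * y ^ 12 := by gcongr
      _ = _ := by ring
  have b4 : x / (q * L) ≤ r * x / (φ * L) := by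
    rw [div_le_div_iff₀ (by positivity) (by positivity)]
    have : φ * L ≤ r * (q * L) := by nlinarith [mul_le_mul_of_nonneg_right f2 (show 0 ≤ L by linarith)]
    nlinarith
  have b5 : 2 * X / (H + 1) ≤ 2 * (r * x / (φ * L)) := by
    calc _ ≤ 2 * x / (φ / r * L) := by gcongr
      _ = _ := by field_simp
  have b6 : r ^ 2 * ((X / q + 1) * (16 * (q / φ) ^ 2 / (L / 14) ^ 2) *
      (2 * H / q + (1 + Real.log H))) ≤ 18816 * (r * x / (φ * L)) := by
    have := Real.log_nonneg H3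
    calc _ ≤ r ^ 2 * (2 * x / q * (16 * (q / φ) ^ 2 / (L / 14) ^ 2) * (3 * (φ / r * L) / q)) := by
          gcongr
      _ = _ := by field_simp; norm_num
  have b7 : 0 ≤ r * x / (φ * L) := by positivity
  calc _ ≤ 20000 * (r * x / (φ * L)) := by linarith
    _ = 40000 * r / φ * (x / (2 * L)) := by field_simp; norm_num
    _ ≤ _ := by gcongr

lemma all_units {q : ℕ} [NeZero q] (X : ℕ) : (X.primeCounting : ℝ) ≤
    ∑ s : (ZMod q)ˣ × (ZMod q)ˣ, cnt X (s.1 : ZMod q) s.2 + (q + 1) := by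
  classical
  have h1 : range X.primeCounting ⊆ (univ.biUnion fun s : (ZMod q)ˣ × (ZMod q)ˣ =>
      {n ∈ range X.primeCounting | (pr n : ZMod q) = s.1 ∧ (pr (n + 1) : ZMod q) = s.2}) ∪
      {n ∈ range X.primeCounting | (pr n : ℝ) ≤ q} := fun n hn => by
    by_cases h : pr n ≤ q
    · exact mem_union_right _ (mem_filter.2 ⟨hn, Nat.cast_le.2 h⟩)
    have key : ∀ m, q < pr m → IsUnit (pr m : ZMod q) := fun m hm =>
      (ZMod.isUnit_iff_coprime _ _).2 ((pr_prime m).coprime_iff_not_dvd.2 fun c =>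
        absurd (Nat.le_of_dvd (NeZero.pos q) c) (not_le.2 hm))
    obtain ⟨a, ha⟩ := key n (not_le.1 h)
    obtain ⟨b, hb⟩ := key (n + 1) ((not_le.1 h).trans (pr_lt n))
    exact mem_union_left _ (mem_biUnion.2 ⟨(a, b), mem_univ _, mem_filter.2 ⟨hn, ha.symm, hb.symm⟩⟩)
  have h2 := (card_le_card h1).trans ((card_union_le _ _).trans (add_le_add card_biUnion_le le_rfl))
  rw [card_range] at h2
  refine (Nat.cast_le.2 h2).trans ?_
  rw [Nat.cast_add]
  exact add_le_add le_rfl (small (Nat.cast_nonneg _) _)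

/-- a distribution without heavy small sets has many points of typical weight -/
lemma typical {ι : Type} [Fintype ι] {f : ι → ℝ} {φ C : ℝ} (hφ : 0 < φ) (hC : 1 ≤ C)
    (hι : (Fintype.card ι : ℝ) = φ ^ 2) (h1 : 3 / 4 ≤ ∑ s, f s)
    (h2 : ∀ A : Finset ι, ∑ s ∈ A, f s ≤ C * √(#A) / φ) :
    1 / (16 * C ^ 2) * φ ^ 2 ≤
      #{s | 1 / (16 * C ^ 2) / φ ^ 2 ≤ f s ∧ f s ≤ 4 * C ^ 2 / φ ^ 2} := by
  classical
  have c1 : 1 / (16 * C ^ 2) ≤ 1 / 4 := by gcongr; nlinarith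
  have e : ∑ s, f s = ∑ s with 1 / (16 * C ^ 2) / φ ^ 2 ≤ f s ∧ f s ≤ 4 * C ^ 2 / φ ^ 2, f s +
      ∑ s with ¬ f s ≤ 4 * C ^ 2 / φ ^ 2, f s + ∑ s with ¬ 1 / (16 * C ^ 2) / φ ^ 2 ≤ f s, f s := by
    simp only [sum_filter, ← sum_add_distrib]
    refine sum_congr rfl fun s _ => ?_
    have : 1 / (16 * C ^ 2) / φ ^ 2 ≤ 4 * C ^ 2 / φ ^ 2 := by gcongr; nlinarith
    by_cases a : 1 / (16 * C ^ 2) / φ ^ 2 ≤ f s <;> by_cases b : f s ≤ 4 * C ^ 2 / φ ^ 2 <;>
      simp only [a, b, and_self, and_false, false_and, not_true, not_false_iff, if_true, if_false,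
        add_zero, zero_add]
    linarith
  have a1 := sum_le_card_nsmul {s | 1 / (16 * C ^ 2) / φ ^ 2 ≤ f s ∧ f s ≤ 4 * C ^ 2 / φ ^ 2} f _
    fun s hs => (mem_filter.1 hs).2.2
  have a2 := sum_le_card_nsmul {s | ¬ 1 / (16 * C ^ 2) / φ ^ 2 ≤ f s} f _
    fun s hs => (not_le.1 (mem_filter.1 hs).2).le
  have a3 := card_nsmul_le_sum {s | ¬ f s ≤ 4 * C ^ 2 / φ ^ 2} f _
    fun s hs => (not_le.1 (mem_filter.1 hs).2).le
  have a4 := h2 {s | ¬ f s ≤ 4 * C ^ 2 / φ ^ 2}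
  have a5 : (#{s | ¬ 1 / (16 * C ^ 2) / φ ^ 2 ≤ f s} : ℝ) ≤ φ ^ 2 :=
    hι ▸ Nat.cast_le.2 (card_le_univ _)
  rw [nsmul_eq_mul] at a1 a2 a3
  have a6 : (#{s | ¬ 1 / (16 * C ^ 2) / φ ^ 2 ≤ f s} : ℝ) * (1 / (16 * C ^ 2) / φ ^ 2) ≤ 1 / 4 :=
    (mul_le_mul_of_nonneg_right a5 (by positivity)).trans (by
      rwa [mul_div_cancel₀ _ (by positivity)])
  have a7 : C * √(#{s | ¬ f s ≤ 4 * C ^ 2 / φ ^ 2}) / φ ≤ 1 / 4 := by
    have b := a3.trans a4
    rw [← Real.sq_sqrt (Nat.cast_nonneg _ : (0 : ℝ) ≤ #{s | ¬ f s ≤ 4 * C ^ 2 / φ ^ 2}),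
      Real.sqrt_sq (Real.sqrt_nonneg _)] at b
    generalize √(#{s | ¬ f s ≤ 4 * C ^ 2 / φ ^ 2} : ℝ) = r at b
    rw [show r ^ 2 * (4 * C ^ 2 / φ ^ 2) = 4 * (C * r / φ) ^ 2 by ring] at b
    nlinarith
  have a8 : 1 / 4 ≤ (#{s | 1 / (16 * C ^ 2) / φ ^ 2 ≤ f s ∧ f s ≤ 4 * C ^ 2 / φ ^ 2} : ℝ) *
      (4 * C ^ 2 / φ ^ 2) := by linarith
  rw [← mul_div_assoc, le_div_iff₀ (by positivity)] at a8
  rw [one_div_mul_eq_div, div_le_iff₀ (by positivity)]
  linarith

end Pool.Agent.Lib.MP_a3b3a7_nt
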