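import Pool.Agent.Shared.SelbergUpper

/-!
Upper bound for prime pairs in a residue class, summed over the shifts in a residue class.
-/

namespace Pool.Agent.Lib.MP_a3b3a7_nt

open Finset Function Pool.Agent.Shared.SelbergUpper

lemma roots {p q : ℕ} (hp : p.Prime) (hq : ¬ p ∣ q) (a h : ℕ) :
    #{t ∈ range p | p ∣ a + q * t ∨ p ∣ a + q * t + h} = if p ∣ h then 1 else 2 := by
  have := Fact.mk hp
  have q0 : (q : ZMod p) ≠ 0 := fun e => hq ((ZMod.natCast_eq_zero_iff _ _).1 e)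
  have : #{t ∈ range p | p ∣ a + q * t ∨ p ∣ a + q * t + h} = #({0, -(h : ZMod p)} : Finset _) := by
    refine card_bij (fun t _ => ((a + q * t : ℕ) : ZMod p)) (fun t ht => ?_) (fun t ht s hs e => ?_)
      fun y hy => ⟨((y - a) / q).val, ?_, ?_⟩
    · rcases (mem_filter.1 ht).2 with e | e <;> rw [← ZMod.natCast_eq_zero_iff] at e
      · exact mem_insert.2 (.inl e)
      · rw [Nat.cast_add] at e
        exact mem_insert.2 (.inr (mem_singleton.2 (eq_neg_of_add_eq_zero_left e)))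
    · push_cast at e
      exact Nat.ModEq.eq_of_lt_of_lt ((ZMod.natCast_eq_natCast_iff _ _ _).1
        (mul_left_cancel₀ q0 (add_left_cancel e))) (mem_range.1 (mem_filter.1 ht).1)
        (mem_range.1 (mem_filter.1 hs).1)
    · refine mem_filter.2 ⟨mem_range.2 (ZMod.val_lt _), ?_⟩
      simp only [← ZMod.natCast_eq_zero_iff]
      push_cast
      rw [ZMod.natCast_zmod_val, mul_div_cancel₀ _ q0, add_sub_cancel]
      simpa [eq_neg_iff_add_eq_zero] using hy
    · push_cast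
      rw [ZMod.natCast_zmod_val, mul_div_cancel₀ _ q0, add_sub_cancel]
  rw [this]
  split_ifs with e
  · simp [(ZMod.natCast_eq_zero_iff _ _).2 e]
  · exact card_pair fun e' => e ((ZMod.natCast_eq_zero_iff _ _).1 (neg_eq_zero.1 e'.symm))

/-- the singular series factor -/
noncomputable def sig (P : Finset ℕ) (q h : ℕ) : ℝ :=
  ∏ p ∈ P, (1 + if ¬ p ∣ 2 * q ∧ p ∣ h then 1 / (p : ℝ) else 0)

lemma prod_q {P : Finset ℕ} (hP : ∀ p ∈ P, p.Prime) {q : ℕ} (hq : 0 < q) :
    ∏ p ∈ P, (1 + if p ∣ 2 * q then 1 / (p : ℝ) else 0) ≤ 2 * (q / q.totient) := by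
  have h1 : ∏ p ∈ P, (1 + if p ∣ 2 * q then 1 / (p : ℝ) else 0) =
      ∏ p ∈ P with p ∣ 2 * q, (1 + 1 / (p : ℝ)) := by
    rw [prod_filter]
    exact prod_congr rfl fun p _ => by split_ifs <;> simp
  have h2 : ∏ p ∈ P with p ∣ 2 * q, (1 + 1 / (p : ℝ)) ≤
      ∏ p ∈ insert 2 (q.primeFactors.erase 2), (1 + 1 / (p : ℝ)) :=
    prod_le_prod_of_subset_of_one_le (fun p hp => by
      obtain ⟨a, b⟩ := mem_filter.1 hp
      by_cases e : p = 2
      · simp [e]
      · refine mem_insert_of_mem (mem_erase.2 ⟨e, Nat.mem_primeFactors.2 ⟨hP p a, ?_, hq.ne'⟩⟩)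
        exact (((hP p a).dvd_mul.1 b).resolve_left fun c =>
          e ((Nat.prime_dvd_prime_iff_eq (hP p a) Nat.prime_two).1 c)))
      (fun _ _ => by positivity) fun _ _ _ => le_add_of_nonneg_right (by positivity)
  have h3 : ∏ p ∈ q.primeFactors.erase 2, (1 + 1 / (p : ℝ)) ≤
      ∏ p ∈ q.primeFactors, (1 + 1 / (p : ℝ)) :=
    prod_le_prod_of_subset_of_one_le (erase_subset _ _) (fun _ _ => by positivity)
      fun _ _ _ => le_add_of_nonneg_right (by positivity)
  have h4 : (q.totient : ℝ) = q * ∏ p ∈ q.primeFactors, (1 - (p : ℝ)⁻¹) := by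
    simpa using congrArg (fun x : ℚ => (x : ℝ)) (Nat.totient_eq_mul_prod_factors q)
  have h5 : ∏ p ∈ q.primeFactors, (1 + 1 / (p : ℝ)) ≤ q / q.totient := by
    rw [le_div_iff₀ (by exact_mod_cast Nat.totient_pos.2 hq), h4, mul_left_comm,
      ← prod_mul_distrib]
    refine mul_le_of_le_one_right (Nat.cast_nonneg _) (prod_le_one (fun p hp => ?_) fun p _ => ?_)
    · exact mul_nonneg (by positivity) (sub_nonneg.2 (inv_le_one_of_one_le₀
        (by exact_mod_cast (Nat.prime_of_mem_primeFactors hp).one_le)))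
    · rw [one_div]; nlinarith [sq_nonneg ((p : ℝ)⁻¹)]
  rw [prod_insert (notMem_erase _ _)] at h2
  have h6 : 0 ≤ ∏ p ∈ q.primeFactors.erase 2, (1 + 1 / (p : ℝ)) := by positivity
  push_cast at h2
  linarith

lemma pairs {P : Finset ℕ} (hP : ∀ p ∈ P, p.Prime) {y : ℝ} (hy : 1 < y)
    (hP1 : ∀ p : ℕ, p.Prime → (p : ℝ) ≤ y → p ∈ P) (hP2 : ∀ p ∈ P, (p : ℝ) ≤ y) {q : ℕ}
    (hq : 0 < q) (a h N : ℕ) :
    (#{t ∈ range N | (a + q * t).Prime ∧ (a + q * t + h).Prime ∧ y < (a + q * t : ℕ)} : ℝ) ≤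
      N * (16 * (q / q.totient) ^ 2 * sig P q h / Real.log y ^ 2) + 2 * (y * y) ^ 6 := by
  have p0 : ∀ p ∈ P, 0 < p := fun p hp => (hP p hp).pos
  have p3 : ∀ p ∈ P, ¬ p ∣ 2 * q → (3 : ℝ) ≤ p := fun p hp e => by
    have : p ≠ 2 := fun c => e (c ▸ dvd_mul_right _ _)
    have := (hP p hp).two_le
    exact_mod_cast (by omega : 3 ≤ p)
  let α : ℕ → ℝ := fun p => if p ∣ 2 * q then 0 else (if p ∣ h then 1 else 2) / p
  have h1 := sieve P hP (fun p t => ¬ p ∣ 2 * q ∧ (p ∣ a + q * t ∨ p ∣ a + q * t + h))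
    (fun p _ t => by
      rw [mul_add, ← add_assoc, add_right_comm _ _ h, Nat.dvd_add_left (dvd_mul_left _ _),
        Nat.dvd_add_left (dvd_mul_left _ _)]) α
    (fun p hp => by
      by_cases e : p ∣ 2 * q
      · simp [α, e]
      · have := p3 p hp e
        simp only [α, e, not_false_eq_true, true_and, if_false,
          roots (hP p hp) (fun c => e (c.mul_left 2))]
        split_ifs <;> field_simp <;> simp)
    (fun p hp => by
      by_cases e : p ∣ 2 * q
      · simpa [α, e] using (hP p hp).one_le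
      · have := p3 p hp e
        simp only [α, e, if_false]
        rw [mul_sub, mul_div_cancel₀ _ (by positivity)]
        split_ifs <;> linarith) (z := y * y) (by nlinarith) N
  let u : ℕ → ℝ := fun p => if p ∣ 2 * q then 0 else 1 / p
  let v : ℕ → ℝ := fun p => if p ∣ 2 * q ∨ p ∣ h then 0 else 1 / p
  have u0 : ∀ p ∈ P, 0 ≤ u p := fun p _ => by simp only [u]; positivity
  have v0 : ∀ p ∈ P, 0 ≤ v p := fun p _ => by simp only [v]; positivity
  have h2 := G_mul P p0 u0 v0 (w := fun p => α p / (1 - α p)) (fun p hp => by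
    by_cases e : p ∣ 2 * q
    · simp [α, u, v, e]
    · have := p3 p hp e
      by_cases e' : p ∣ h
      · simp only [α, u, v, e, e', if_true, if_false, or_true, mul_zero, add_zero]
        have : 1 / (p : ℝ) < 1 := by rw [div_lt_one (by linarith)]; linarith
        rw [le_div_iff₀ (by linarith)]
        nlinarith [sq_nonneg (1 / (p : ℝ))]
      · simp only [α, u, v, e, e', if_false, or_self]
        have c : 2 / (p : ℝ) = 2 * (1 / p) := by ring
        have d : 1 / (p : ℝ) ≤ 1 / 3 := by gcongr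
        have d0 : 0 ≤ 1 / (p : ℝ) := by positivity
        rw [c, le_div_iff₀ (by linarith)]
        nlinarith [mul_nonneg d0 (mul_nonneg d0 d0), mul_nonneg d0 d0]) (y := y) (z := y)
    (by linarith) (by linarith)
  have h3 := G_le P p0 (u := fun p => 1 / p) (v := u) (fun p => if p ∣ 2 * q then 1 / (p : ℝ) else 0)
    (fun _ _ => by positivity) u0 (fun _ _ => by positivity)
    (fun p _ => by simp only [u]; split_ifs <;> simp) (z := y) (by linarith)
  have h4 : G P u y ≤ G P v y * sig P q h := G_le P p0 _ u0 v0 (fun _ _ => by positivity)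
    (fun p _ => by
      by_cases e : p ∣ 2 * q <;> by_cases e' : p ∣ h <;> simp [u, v, e, e']) (by linarith)
  have h5 := log_le_G hy.le hP1
  have h6 := mul_le_mul_of_nonneg_left (prod_q hP hq) (G_nonneg u0 y)
  have l0 := Real.log_pos hy
  have gu := one_le_G u0 hy.le
  have gv := one_le_G v0 hy.le
  have s0 : 0 ≤ sig P q h := by unfold sig; positivity
  refine le_trans (Nat.cast_le.2 (card_le_card fun t ht => ?_)) (h1.trans ?_)
  · obtain ⟨a1, a2, a3, a4⟩ := mem_filter.1 ht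
    refine mem_filter.2 ⟨a1, fun p hp c => ?_⟩
    have := (hP2 p hp).trans_lt a4
    rcases c.2 with c | c
    · rw [(Nat.prime_dvd_prime_iff_eq (hP p hp) a2).1 c] at this
      exact lt_irrefl _ this
    · rw [(Nat.prime_dvd_prime_iff_eq (hP p hp) a3).1 c] at this
      exact absurd (Nat.cast_lt.1 this) (by omega)
  · rw [div_eq_mul_one_div]
    refine add_le_add (mul_le_mul_of_nonneg_left ?_ (Nat.cast_nonneg _)) le_rfl
    rw [div_le_div_iff₀ (by nlinarith) (by positivity), one_mul]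
    set Q : ℝ := q / q.totient
    have Q0 : 0 ≤ Q := by positivity
    have b1 : Real.log y ≤ 4 * Q * G P u y := by linarith
    calc Real.log y ^ 2 ≤ (4 * Q * G P u y) ^ 2 := by gcongr
      _ = 16 * Q ^ 2 * (G P u y * G P u y) := by ring
      _ ≤ 16 * Q ^ 2 * (G P u y * (G P v y * sig P q h)) := by gcongr
      _ = 16 * Q ^ 2 * sig P q h * (G P u y * G P v y) := by ring
      _ ≤ _ := by gcongr

lemma card_cong {A : Finset ℕ} {H m : ℕ} (h1 : ∀ x ∈ A, x ≤ H)
    (h2 : ∀ x ∈ A, ∀ y ∈ A, x ≡ y [MOD m]) : (#A : ℝ) ≤ H / m + 1 := by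
  have : #A ≤ #(range (H / m + 1)) := card_le_card_of_injOn (fun x => x / m)
    (fun x hx => mem_coe.2 (mem_range.2 (Nat.lt_succ_of_le (Nat.div_le_div_right (h1 x hx)))))
    fun x hx y hy e => by
      rw [← Nat.div_add_mod x m, ← Nat.div_add_mod y m, show x % m = y % m from h2 x hx y hy]
      exact congrArg (fun k => m * k + y % m) e
  rw [card_range] at this
  refine (Nat.cast_le.2 this).trans ?_
  push_cast
  gcongr
  exact Nat.cast_div_le

lemma sum_sig {P : Finset ℕ} (hP : ∀ p ∈ P, p.Prime) {q : ℕ} (hq : 0 < q) (v : ZMod q) (H : ℕ) :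
    ∑ h ∈ Icc 1 H with ((h : ℕ) : ZMod q) = v, sig P q h ≤ 2 * H / q + (1 + Real.log H) := by
  have h1 : ∀ h ∈ Icc 1 H, sig P q h ≤
      ∑ d ∈ Icc 1 H, if d.Coprime q ∧ d ∣ h then 1 / (d : ℝ) else 0 := fun h hh => by
    rw [sig, prod_one_add, ← sum_filter]
    have e : ∑ S ∈ P.powerset, ∏ p ∈ S, (if ¬ p ∣ 2 * q ∧ p ∣ h then 1 / (p : ℝ) else 0) =
        ∑ S ∈ P.powerset with ∀ p ∈ S, ¬ p ∣ 2 * q ∧ p ∣ h, 1 / ((∏ p ∈ S, p : ℕ) : ℝ) := by
      rw [sum_filter]
      refine sum_congr rfl fun S _ => ?_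
      rw [prod_ite_zero]
      simp
    rw [e]
    have pr : ∀ S ∈ P.powerset.filter fun S => ∀ p ∈ S, ¬ p ∣ 2 * q ∧ p ∣ h, ∀ p ∈ S, p.Prime :=
      fun S hS p hp => hP p (mem_powerset.1 (mem_filter.1 hS).1 hp)
    refine inj_sum pr (fun S hS => ?_) (F := fun d => 1 / (d : ℝ)) fun _ => by positivity
    have d1 : ∏ p ∈ S, p ∣ h := Finset.prod_primes_dvd _ (fun p hp => (pr S hS p hp).prime)
      fun p hp => ((mem_filter.1 hS).2 p hp).2
    exact mem_filter.2 ⟨mem_Icc.2 ⟨prod_pos fun p hp => (pr S hS p hp).pos,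
      (Nat.le_of_dvd (mem_Icc.1 hh).1 d1).trans (mem_Icc.1 hh).2⟩,
      Nat.Coprime.prod_left fun p hp => (pr S hS p hp).coprime_iff_not_dvd.2 fun c =>
        ((mem_filter.1 hS).2 p hp).1 (c.mul_left 2), d1⟩
  refine (sum_le_sum fun h hh => h1 h (mem_filter.1 hh).1).trans ?_
  rw [sum_comm]
  have h2 : ∀ d ∈ Icc 1 H, ∑ h ∈ Icc 1 H with ((h : ℕ) : ZMod q) = v,
      (if d.Coprime q ∧ d ∣ h then 1 / (d : ℝ) else 0) ≤ H / q * (1 / d ^ 2) + 1 / d := by
    intro d hd
    have d0 : (0 : ℝ) < d := by exact_mod_cast (mem_Icc.1 hd).1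
    rw [← sum_filter, sum_const, nsmul_eq_mul]
    refine (mul_le_mul_of_nonneg_right (card_cong (H := H) (m := d * q)
      (fun x hx => (mem_Icc.1 (mem_filter.1 (mem_filter.1 hx).1).1).2) fun x hx y hy => ?_)
      (by positivity)).trans (le_of_eq (by push_cast; field_simp))
    obtain ⟨a1, a2, a3⟩ := mem_filter.1 hx
    obtain ⟨b1, -, b3⟩ := mem_filter.1 hy
    exact (Nat.modEq_and_modEq_iff_modEq_mul a2).1
      ⟨(Nat.modEq_zero_iff_dvd.2 a3).trans (Nat.modEq_zero_iff_dvd.2 b3).symm,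
        (ZMod.natCast_eq_natCast_iff _ _ _).1 ((mem_filter.1 a1).2.trans (mem_filter.1 b1).2.symm)⟩
  refine (sum_le_sum h2).trans ?_
  rw [sum_add_distrib, ← mul_sum]
  have h3 := harmonic_le_one_add_log H
  rw [harmonic_eq_sum_Icc] at h3
  refine add_le_add ((mul_le_mul_of_nonneg_left (sum_inv_sq H) (by positivity)).trans
    (le_of_eq (by ring))) (by simpa using h3)

end Pool.Agent.Lib.MP_a3b3a7_nt
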