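import Pool.Agent.Lib.MP_a3b3a7_nt.Main

/-!
The share of consecutive primes with a given residue pattern.
-/

namespace Pool.Agent.Lib.MP_a3b3a7_nt

open Finset Filter

/-- `share q a b x` is `f_{ab}(x,q,1)`: the number of `n` with `p_n ≤ x`, `p_n ≡ a`,
`p_{n+1} ≡ b` modulo `q`, divided by `π(x)`. -/
noncomputable def share (q : ℕ) (a b : ZMod q) (x : ℝ) : ℝ :=
  (((Finset.range (Nat.primeCounting ⌊x⌋₊)).filter
    (fun n => ((Nat.nth Nat.Prime n : ℕ) : ZMod q) = a ∧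
      ((Nat.nth Nat.Prime (n + 1) : ℕ) : ZMod q) = b)).card : ℝ) / (Nat.primeCounting ⌊x⌋₊ : ℝ)

end Pool.Agent.Lib.MP_a3b3a7_nt
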